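import Pool.Agent.Q84.DSep.Gen

set_option autoImplicit false

/-!
# d-separation from the vanishing of covariances
-/

namespace Pool.Agent.Q84.DSep

open MvPolynomial

variable {n : ℕ} {E : Fin n → Fin n → Prop}

/-- Edges avoiding the vertices without the property `av`. -/
def Ea (E : Fin n → Fin n → Prop) (av : Fin n → Prop) (x y : Fin n) : Prop :=
  E x y ∧ av x ∧ av y

theorem one_sided (hE : ∀ i, ¬ Relation.TransGen E i i) {i j : Fin n} {l : ℕ} {f : ℕ → Fin n}
    (hP : IsPath E i j l f) (av Wp : Fin n → Prop)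
    (hav : ∀ k ≤ l, ¬ IsCollider E l f k → av (f k)) (hW : ∀ k, IsCollider E l f k → Wp (f k))
    (hWc : ∀ x y, E x y → Wp y → Wp x) :
    (∃ t, av t ∧ Relation.ReflTransGen (Ea E av) t i ∧ Relation.ReflTransGen (Ea E av) t j) ∨
    (∃ t, av t ∧ Relation.ReflTransGen (Ea E av) t i ∧ Wp t) := by
  have h2 : ∀ x y, E x y → ¬ E y x := fun x y h h' =>
    hE x ((Relation.TransGen.single h).tail h')
  have hWc' : ∀ x y, Relation.ReflTransGen (Ea E av) x y → Wp y → Wp x := by
    intro x y h hy
    induction h with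
    | refl => exact hy
    | tail _ hbc ih => exact ih (hWc _ _ hbc.1 hy)
  have key : ∀ k ≤ l, (av (f k) ∧ Relation.ReflTransGen (Ea E av) (f k) i) ∨
      (0 < k ∧ E (f (k - 1)) (f k) ∧ ∃ t, av t ∧ av (f (k - 1)) ∧
        Relation.ReflTransGen (Ea E av) t i ∧
        Relation.ReflTransGen (Ea E av) t (f (k - 1))) ∨
      (∃ t, av t ∧ Relation.ReflTransGen (Ea E av) t i ∧ Wp t) := by
    intro k
    induction k with
    | zero =>
      intro _
      left
      refine ⟨hav 0 (Nat.zero_le _) fun h => absurd h.1 (lt_irrefl _), ?_⟩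
      rw [hP.start]
    | succ k ih =>
      intro hk
      rcases ih (by omega) with ⟨ha, hu⟩ | ⟨hk0, hin, t, hta, hak, hti, htk⟩ | h
      · rcases hP.adj k (by omega) with h | h
        · right; left
          exact ⟨Nat.succ_pos _, h, f k, ha, ha, hu, Relation.ReflTransGen.refl⟩
        · left
          have hav' : av (f (k + 1)) := by
            apply hav _ hk
            rintro ⟨-, -, hc, -⟩
            rw [Nat.add_sub_cancel] at hc
            exact h2 _ _ hc h
          exact ⟨hav', Relation.ReflTransGen.head ⟨h, hav', ha⟩ hu⟩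
      · rcases hP.adj k (by omega) with h | h
        · right; left
          have hav' : av (f k) := by
            apply hav k (by omega)
            rintro ⟨-, -, -, hc⟩
            exact h2 _ _ h hc
          exact ⟨Nat.succ_pos _, h, t, hta, hav', hti, htk.tail ⟨hin, hak, hav'⟩⟩
        · right; right
          have hcol : Wp (f k) := hW k ⟨hk0, by omega, hin, h⟩
          exact ⟨t, hta, hti, hWc' _ _ htk (hWc _ _ hin hcol)⟩
      · right; right; exact h
  rcases key l le_rfl with ⟨ha, hu⟩ | ⟨hk0, hin, t, hta, hak, hti, htk⟩ | h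
  · left
    exact ⟨f l, ha, hu, by rw [hP.finish]⟩
  · left
    have hav' : av (f l) := hav l le_rfl fun h => absurd h.2.1 (lt_irrefl _)
    refine ⟨t, hta, hti, ?_⟩
    have := htk.tail (show Ea E av (f (l - 1)) (f l) from ⟨hin, hak, hav'⟩)
    rwa [hP.finish] at this
  · right; exact h

theorem path_reverse {i j : Fin n} {l : ℕ} {f : ℕ → Fin n} (hP : IsPath E i j l f) :
    IsPath E j i l (fun k => f (l - k)) := by
  refine ⟨by simpa using hP.finish, by simpa using hP.start, ?_, ?_⟩
  · intro k hk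
    have h1 := hP.adj (l - (k + 1)) (by omega)
    have h2 : l - (k + 1) + 1 = l - k := by omega
    rw [h2] at h1
    exact h1.symm
  · intro k hk m hm h
    have := hP.inj (l - k) (by omega) (l - m) (by omega) h
    omega

theorem collider_reverse {l : ℕ} {f : ℕ → Fin n} {k : ℕ} (hk : k ≤ l) :
    IsCollider E l (fun k => f (l - k)) k ↔ IsCollider E l f (l - k) := by
  unfold IsCollider
  constructor
  · rintro ⟨h1, h2, h3, h4⟩
    refine ⟨by omega, by omega, ?_, ?_⟩
    · rw [show l - k - 1 = l - (k + 1) by omega]; exact h4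
    · rw [show l - k + 1 = l - (k - 1) by omega]; exact h3
  · rintro ⟨h1, h2, h3, h4⟩
    refine ⟨by omega, by omega, ?_, ?_⟩
    · show E (f (l - (k - 1))) (f (l - k))
      rw [show l - (k - 1) = l - k + 1 by omega]; exact h4
    · show E (f (l - (k + 1))) (f (l - k))
      rw [show l - (k + 1) = l - k - 1 by omega]; exact h3

theorem dsep_symm {C : Finset (Fin n)} {i j : Fin n} (h : DSep E C i j) : DSep E C j i := by
  intro l f hP
  rcases h l _ (path_reverse hP) with ⟨k, hk, hC, hcol⟩ | ⟨k, hcol, hd⟩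
  · left
    refine ⟨l - k, by omega, hC, ?_⟩
    rwa [collider_reverse hk] at hcol
  · right
    have hk : k ≤ l := le_of_lt hcol.2.1
    exact ⟨l - k, (collider_reverse hk).mp hcol, hd⟩

/-- The two-sided statement for a path which is not blocked. -/
theorem two_sided (hE : ∀ i, ¬ Relation.TransGen E i i) {i j : Fin n} {l : ℕ} {f : ℕ → Fin n}
    (hP : IsPath E i j l f) (av Wp : Fin n → Prop)
    (hav : ∀ k ≤ l, ¬ IsCollider E l f k → av (f k)) (hW : ∀ k, IsCollider E l f k → Wp (f k))
    (hWc : ∀ x y, E x y → Wp y → Wp x) :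
    (∃ t, av t ∧ Relation.ReflTransGen (Ea E av) t i ∧ Relation.ReflTransGen (Ea E av) t j) ∨
    ((∃ t, av t ∧ Relation.ReflTransGen (Ea E av) t i ∧ Wp t) ∧
      (∃ t, av t ∧ Relation.ReflTransGen (Ea E av) t j ∧ Wp t)) := by
  rcases one_sided hE hP av Wp hav hW hWc with h | h
  · exact Or.inl h
  rcases one_sided hE (path_reverse hP) av Wp
    (fun k hk hc => hav (l - k) (by omega) (by rwa [collider_reverse hk] at hc))
    (fun k hc => hW (l - k) ((collider_reverse (le_of_lt hc.2.1)).mp hc)) hWc with h' | h'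
  · obtain ⟨t, h1, h2, h3⟩ := h'
    exact Or.inl ⟨t, h1, h3, h2⟩
  · exact Or.inr ⟨h, h'⟩

/-! ### Algebra -/

open Classical in
/-- Kill the variances of all vertices except `s`, `t`. -/
noncomputable def ks (E : Fin n → Fin n → Prop) (s t : Fin n) : B E →ₐ[ℝ] B E :=
  aeval (Sum.elim (fun i => if i = s ∨ i = t then X (Sum.inl i) else 0) (fun e => X (Sum.inr e)))

theorem ks_sg (hE : ∀ i, ¬ Relation.TransGen E i i) {s t : Fin n} (hst : s ≠ t) (a b : Fin n) :
    ks E s t (sg E a b) = X (Sum.inl s) * pm (Lg E) s a * pm (Lg E) s b +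
      X (Sum.inl t) * pm (Lg E) t a * pm (Lg E) t b := by
  classical
  have h0 : (Lg E).map (ks E s t : B E →+* B E) = Lg E := by
    ext a b : 2
    rw [Matrix.map_apply, Lg]
    split_ifs with h
    · simp [ks]
    · simp
  have h1 : ks E s t (sg E a b) =
    (ks E s t : B E →+* B E) (cov (Lg E) (fun t => X (Sum.inl t)) a b) := rfl
  have hw : ∀ x, (ks E s t : B E →+* B E) (X (Sum.inl x)) =
      if x = s ∨ x = t then X (Sum.inl x) else 0 := by
    intro x
    change ks E s t (X (Sum.inl x)) = _
    rw [ks, aeval_X]; rfl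
  rw [h1, cov_map hE Lg_supp, h0, cov_apply]
  rw [← Finset.sum_subset (Finset.subset_univ {s, t})]
  · rw [Finset.sum_pair hst, hw, hw, if_pos (Or.inl rfl), if_pos (Or.inr rfl)]
  · intro x _ hx
    simp only [Finset.mem_insert, Finset.mem_singleton] at hx
    rw [hw, if_neg hx, zero_mul, zero_mul]

theorem ks_sg_self (hE : ∀ i, ¬ Relation.TransGen E i i) (t : Fin n) (a b : Fin n) :
    ks E t t (sg E a b) = X (Sum.inl t) * pm (Lg E) t a * pm (Lg E) t b := by
  classical
  have h0 : (Lg E).map (ks E t t : B E →+* B E) = Lg E := by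
    ext a b : 2
    rw [Matrix.map_apply, Lg]
    split_ifs with h
    · simp [ks]
    · simp
  have h1 : ks E t t (sg E a b) =
    (ks E t t : B E →+* B E) (cov (Lg E) (fun t => X (Sum.inl t)) a b) := rfl
  have hw : ∀ x, (ks E t t : B E →+* B E) (X (Sum.inl x)) =
      if x = t ∨ x = t then X (Sum.inl x) else 0 := by
    intro x
    change ks E t t (X (Sum.inl x)) = _
    rw [ks, aeval_X]; rfl
  rw [h1, cov_map hE Lg_supp, h0, cov_apply, Finset.sum_eq_single t]
  · rw [hw, if_pos (Or.inl rfl)]
  · intro x _ hx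
    rw [hw, if_neg (by tauto), zero_mul, zero_mul]
  · intro h; exact absurd (Finset.mem_univ _) h

theorem minors (hE : ∀ i, ¬ Relation.TransGen E i i) {i j c : Fin n}
    (h : sg E i j * sg E c c = sg E i c * sg E c j) (s t : Fin n) :
    (pm (Lg E) s i * pm (Lg E) t c - pm (Lg E) t i * pm (Lg E) s c) *
      (pm (Lg E) s j * pm (Lg E) t c - pm (Lg E) t j * pm (Lg E) s c) = 0 := by
  by_cases hst : s = t
  · subst hst; ring
  have h1 := congrArg (ks E s t) h
  rw [map_mul, map_mul, ks_sg hE hst, ks_sg hE hst, ks_sg hE hst, ks_sg hE hst] at h1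
  have h2 : (X (Sum.inl s) * X (Sum.inl t)) *
      ((pm (Lg E) s i * pm (Lg E) t c - pm (Lg E) t i * pm (Lg E) s c) *
      (pm (Lg E) s j * pm (Lg E) t c - pm (Lg E) t j * pm (Lg E) s c)) = 0 := by
    linear_combination h1
  rcases mul_eq_zero.mp h2 with h3 | h3
  · exact absurd h3 (mul_ne_zero (X_ne_zero _) (X_ne_zero _))
  · exact h3

open Classical in
/-- The adjacency matrix of the graph restricted to the vertices with property `av`. -/
noncomputable def adj (E : Fin n → Fin n → Prop) (av : Fin n → Prop) :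
    Matrix (Fin n) (Fin n) ℝ := fun x y => if Ea E av x y then 1 else 0

theorem adj_supp (av : Fin n → Prop) : Supp E (adj E av) := by
  intro x y h
  rw [adj, if_neg (fun h' => h h'.1)]

theorem adj_nonneg (av : Fin n → Prop) (x y : Fin n) : 0 ≤ adj E av x y := by
  rw [adj]; split_ifs <;> norm_num

/-- The evaluation homomorphism at the restricted adjacency matrix. -/
noncomputable def evA (E : Fin n → Fin n → Prop) (av : Fin n → Prop) : B E →+* ℝ :=
  eval (Sum.elim (fun _ => 1) (fun e => adj E av e.1.1 e.1.2))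

theorem evA_pm (hE : ∀ i, ¬ Relation.TransGen E i i) (av : Fin n → Prop) (x y : Fin n) :
    evA E av (pm (Lg E) x y) = pm (adj E av) x y := by
  have h0 : (Lg E).map (evA E av) = adj E av := by
    ext a b
    rw [evA, Lg_map_eval]
    by_cases h : E a b
    · rw [dif_pos h]; rfl
    · rw [dif_neg h, adj_supp av a b h]
  rw [pm_map hE Lg_supp, h0]

theorem adj_pos (hE : ∀ i, ¬ Relation.TransGen E i i) (av : Fin n → Prop) {x y : Fin n}
    (h : Relation.ReflTransGen (Ea E av) x y) : 0 < pm (adj E av) x y := by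
  refine pm_pos hE (adj_supp av) (adj_nonneg av) (Relation.ReflTransGen.mono ?_ _ _ h)
  intro a b hab
  rw [adj, if_pos hab]
  exact one_pos

theorem pm_ne_zero (hE : ∀ i, ¬ Relation.TransGen E i i) {x y : Fin n}
    (h : Relation.ReflTransGen E x y) : pm (Lg E) x y ≠ 0 := by
  intro h0
  have h1 : Relation.ReflTransGen (Ea E (fun _ => True)) x y :=
    Relation.ReflTransGen.mono (fun a b hab => ⟨hab, trivial, trivial⟩) _ _ h
  have h2 := adj_pos hE _ h1
  rw [← evA_pm hE, h0, map_zero] at h2
  exact lt_irrefl _ h2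

/-- The sum over the paths avoiding `c` is not zero if there is such a path. -/
theorem u_ne_zero (hE : ∀ i, ¬ Relation.TransGen E i i) {c t i : Fin n} (htc : t ≠ c)
    (h : Relation.ReflTransGen (Ea E (fun x => x ≠ c)) t i) :
    pm (Lg E) t i * pm (Lg E) c c - pm (Lg E) c i * pm (Lg E) t c ≠ 0 := by
  intro h0
  have h1 := congrArg (evA E (fun x => x ≠ c)) h0
  rw [map_sub, map_mul, map_mul, map_zero, evA_pm hE, evA_pm hE, evA_pm hE, evA_pm hE] at h1
  have h2 : ∀ x, pm (adj E (fun x => x ≠ c)) x c = (1 : Matrix (Fin n) (Fin n) ℝ) x c := by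
    intro x
    rw [pm_rec_right hE (adj_supp _), Finset.sum_eq_zero, add_zero]
    intro z _
    rw [show adj E (fun x => x ≠ c) z c = 0 from ?_, mul_zero]
    rw [adj, if_neg]
    rintro ⟨-, -, h⟩
    exact h rfl
  rw [h2, h2, Matrix.one_apply_eq, Matrix.one_apply_ne htc, mul_one, mul_zero, sub_zero] at h1
  have h3 := adj_pos hE _ h
  rw [h1] at h3
  exact lt_irrefl _ h3

/-- Completeness: the vanishing of the conditional covariance implies d-separation by one
vertex. -/
theorem dsep_singleton (hE : ∀ i, ¬ Relation.TransGen E i i) {i j c : Fin n}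
    (h : sg E i j * sg E c c = sg E i c * sg E c j) : DSep E {c} i j := by
  intro l f hP
  by_contra hcon
  push Not at hcon
  obtain ⟨h1, h2⟩ := hcon
  have hav : ∀ k ≤ l, ¬ IsCollider E l f k → f k ≠ c := by
    intro k hk hc hfc
    exact hc (h1 k hk (by rw [hfc]; exact Finset.mem_singleton_self c))
  have hW : ∀ k, IsCollider E l f k → Relation.ReflTransGen E (f k) c := by
    intro k hk
    obtain ⟨d, hd, hdc⟩ := h2 k hk
    rw [Finset.mem_singleton] at hdc
    rwa [hdc] at hd
  have hm := minors hE h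
  have huv : ∀ s, (pm (Lg E) s i * pm (Lg E) c c - pm (Lg E) c i * pm (Lg E) s c) *
      (pm (Lg E) s j * pm (Lg E) c c - pm (Lg E) c j * pm (Lg E) s c) = 0 := fun s => hm s c
  rcases two_sided hE hP (fun x => x ≠ c) (fun x => Relation.ReflTransGen E x c) hav hW
    (fun x y hxy hy => Relation.ReflTransGen.head hxy hy) with
    ⟨t, htc, hti, htj⟩ | ⟨⟨s, hsc, hsi, hsW⟩, ⟨t, htc, htj, htW⟩⟩
  · exact mul_ne_zero (u_ne_zero hE htc hti) (u_ne_zero hE htc htj) (huv t)
  · have hus := u_ne_zero hE hsc hsi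
    have hvt := u_ne_zero hE htc htj
    have hvs := (mul_eq_zero.mp (huv s)).resolve_left hus
    have hut := (mul_eq_zero.mp (huv t)).resolve_right hvt
    have hws := pm_ne_zero hE hsW
    have hwt := pm_ne_zero hE htW
    have hcc := pm_ne_zero hE (Relation.ReflTransGen.refl : Relation.ReflTransGen E c c)
    rcases mul_eq_zero.mp (hm s t) with h3 | h3
    · apply mul_ne_zero hus hwt
      linear_combination pm (Lg E) c c * h3 + pm (Lg E) s c * hut
    · apply mul_ne_zero hvt hws
      linear_combination (- pm (Lg E) c c) * h3 + pm (Lg E) t c * hvs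

/-- The vanishing of the covariance implies d-separation by the empty set. -/
theorem dsep_empty (hE : ∀ i, ¬ Relation.TransGen E i i) {i j : Fin n}
    (h : sg E i j = 0) : DSep E ∅ i j := by
  intro l f hP
  by_contra hcon
  push Not at hcon
  obtain ⟨-, h2⟩ := hcon
  have hnc : ∀ k, ¬ IsCollider E l f k := by
    intro k hk
    obtain ⟨d, -, hd⟩ := h2 k hk
    exact absurd hd (Finset.notMem_empty d)
  have hm : ∀ t, pm (Lg E) t i * pm (Lg E) t j = 0 := by
    intro t
    have h3 := congrArg (ks E t t) h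
    rw [ks_sg_self hE, map_zero, mul_assoc] at h3
    exact (mul_eq_zero.mp h3).resolve_left (X_ne_zero _)
  have hmono : ∀ x y, Relation.ReflTransGen (Ea E (fun _ => True)) x y →
      Relation.ReflTransGen E x y := fun x y h =>
    Relation.ReflTransGen.mono (fun a b hab => hab.1) _ _ h
  rcases two_sided hE hP (fun _ => True) (fun _ => False) (fun _ _ _ => trivial)
    (fun k hk => hnc k hk) (fun _ _ _ h => h) with ⟨t, -, hti, htj⟩ | ⟨⟨s, -, -, h⟩, -⟩
  · exact mul_ne_zero (pm_ne_zero hE (hmono _ _ hti)) (pm_ne_zero hE (hmono _ _ htj)) (hm t)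
  · exact h

/-- The main theorem. -/
theorem exists_dsep (hE : ∀ i, ¬ Relation.TransGen E i i) (hBP : Trek.BP (gaussianIdeal E))
    {i j : Fin n} (hij : i ≠ j) (hn : ¬ E i j) (hn' : ¬ E j i) :
    ∃ C : Finset (Fin n), i ∉ C ∧ j ∉ C ∧ C.card ≤ 1 ∧ DSep E C i j := by
  rw [gaussianIdeal_eq hE] at hBP
  have key : ∀ i j : Fin n, i ≠ j → ¬ E i j → ¬ Relation.ReflTransGen E j i →
      ∃ C : Finset (Fin n), i ∉ C ∧ j ∉ C ∧ C.card ≤ 1 ∧ DSep E C i j := by
    intro i j hij hn hji
    by_cases h0 : sg E i j = 0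
    · exact ⟨∅, by simp, by simp, by simp, dsep_empty hE h0⟩
    · obtain ⟨c, hci, hcj, h⟩ := relation hE hBP hij hn hji h0
      refine ⟨{c}, ?_, ?_, by simp, dsep_singleton hE h⟩
      · rw [Finset.mem_singleton]; exact hci.symm
      · rw [Finset.mem_singleton]
        rintro rfl
        exact hE _ (Relation.TransGen.single hcj)
  by_cases hji : Relation.ReflTransGen E j i
  · obtain ⟨C, h1, h2, h3, h4⟩ := key j i hij.symm hn' (fun h => by
      rcases Relation.reflTransGen_iff_eq_or_transGen.mp h with h5 | h5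
      · exact hij h5.symm
      · exact hE i (Relation.TransGen.trans_left h5 hji))
    exact ⟨C, h2, h1, h3, dsep_symm h4⟩
  · exact key i j hij hn hji

end Pool.Agent.Q84.DSep
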