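import Mathlib

set_option autoImplicit false

/-!
# Gaussian models of directed acyclic graphs and d-separation
-/

namespace Pool.Agent.Q84.DSep

open MvPolynomial

variable {n : ℕ}

/-- The variables `sigma_ij`, `i ≤ j`. -/
abbrev Idx (n : ℕ) := {p : Fin n × Fin n // p.1 ≤ p.2}

/-- The covariance matrix `(1 - L)^(-T) W (1 - L)^(-1)`, where `W` is the diagonal matrix with
diagonal `w`. -/
noncomputable def cov {R : Type*} [CommRing R] (L : Matrix (Fin n) (Fin n) R) (w : Fin n → R) :
    Matrix (Fin n) (Fin n) R :=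
  ((1 - L)⁻¹).transpose * Matrix.diagonal w * (1 - L)⁻¹

/-- The Gaussian model of the graph with edge relation `E`: the entries on and above the diagonal
of the covariance matrices `(1 - L)^(-T) W (1 - L)^(-1)`, where `L` is a real matrix with
`L i j = 0` unless `i → j` is an edge, and `W` is diagonal with positive diagonal entries. -/
def model (E : Fin n → Fin n → Prop) : Set (Idx n → ℝ) :=
  {s | ∃ (L : Matrix (Fin n) (Fin n) ℝ) (w : Fin n → ℝ), (∀ i j, ¬ E i j → L i j = 0) ∧
    (∀ i, 0 < w i) ∧ ∀ p : Idx n, s p = cov L w p.1.1 p.1.2}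

/-- The vanishing ideal of the Gaussian model. -/
noncomputable def gaussianIdeal (E : Fin n → Fin n → Prop) : Ideal (MvPolynomial (Idx n) ℝ) :=
  vanishingIdeal ℝ (model E)

/-- An ideal is toric if it is a prime ideal generated by binomials (polynomials with at most
two terms). -/
def IsToric {ι : Type} (I : Ideal (MvPolynomial ι ℝ)) : Prop :=
  I.IsPrime ∧ ∃ S : Set (MvPolynomial ι ℝ), (∀ f ∈ S, ∃ (m m' : ι →₀ ℕ) (a b : ℝ),
    f = monomial m a + monomial m' b) ∧ I = Ideal.span S

/-- An ideal is toric (parametric form) if it is the kernel of a homomorphism to the algebra of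
some commutative monoid `M` (such as `ℕ^m`: a polynomial ring, or `ℤ^m`: a Laurent polynomial
ring) which sends every variable to a scalar multiple (possibly zero) of an element of `M`. -/
def IsToricKer {ι : Type} (I : Ideal (MvPolynomial ι ℝ)) : Prop :=
  ∃ (M : Type) (_ : AddCommMonoid M) (θ : MvPolynomial ι ℝ →ₐ[ℝ] AddMonoidAlgebra ℝ M),
    (∀ p, ∃ (u : M) (c : ℝ), θ (X p) = AddMonoidAlgebra.single u c) ∧ I = RingHom.ker θ

/-- `f 0, …, f l` are the vertices of a path from `i` to `j`: consecutive vertices are joined by an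
edge of any orientation and no vertex is repeated. -/
structure IsPath (E : Fin n → Fin n → Prop) (i j : Fin n) (l : ℕ) (f : ℕ → Fin n) : Prop where
  start : f 0 = i
  finish : f l = j
  adj : ∀ k < l, E (f k) (f (k + 1)) ∨ E (f (k + 1)) (f k)
  inj : ∀ k ≤ l, ∀ m ≤ l, f k = f m → k = m

/-- The `k`-th vertex of a path is a collider: it is an interior vertex and both path edges at it
point into it. -/
def IsCollider (E : Fin n → Fin n → Prop) (l : ℕ) (f : ℕ → Fin n) (k : ℕ) : Prop :=
  0 < k ∧ k < l ∧ E (f (k - 1)) (f k) ∧ E (f (k + 1)) (f k)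

/-- The set `C` d-separates `i` and `j`: every path from `i` to `j` has a non-collider in `C` or a
collider `c` such that neither `c` nor a descendant of `c` lies in `C`. -/
def DSep (E : Fin n → Fin n → Prop) (C : Finset (Fin n)) (i j : Fin n) : Prop :=
  ∀ (l : ℕ) (f : ℕ → Fin n), IsPath E i j l f →
    (∃ k ≤ l, f k ∈ C ∧ ¬ IsCollider E l f k) ∨
    (∃ k, IsCollider E l f k ∧ ∀ d, Relation.ReflTransGen E (f k) d → d ∉ C)

end Pool.Agent.Q84.DSep
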