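import Pool.Agent.Q84.DSep.Mat
import Pool.Agent.Q84.Trek.Low

set_option autoImplicit false

/-!
# The generic covariance matrix
-/

namespace Pool.Agent.Q84.DSep

open MvPolynomial
open Pool.Agent.Q84.Trek (BP tau tau_inl tau_inr tau_inj ord ord_mul ord_smul ord_inl extraction)

variable {n : ℕ} {E : Fin n → Fin n → Prop}

/-- The parameters. -/
abbrev Prm (E : Fin n → Fin n → Prop) := Fin n ⊕ {e : Fin n × Fin n // E e.1 e.2}

/-- The ring of the parameters. -/
abbrev B (E : Fin n → Fin n → Prop) := MvPolynomial (Prm E) ℝ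

open Classical in
/-- The generic edge matrix. -/
noncomputable def Lg (E : Fin n → Fin n → Prop) : Matrix (Fin n) (Fin n) (B E) :=
  fun x y => if h : E x y then X (Sum.inr ⟨(x, y), h⟩) else 0

theorem Lg_of {x y : Fin n} (h : E x y) : Lg E x y = X (Sum.inr ⟨(x, y), h⟩) := by
  rw [Lg, dif_pos h]

theorem Lg_supp : Supp E (Lg E) := fun x y h => by rw [Lg, dif_neg h]

/-- The generic covariances. -/
noncomputable def sg (E : Fin n → Fin n → Prop) (x y : Fin n) : B E :=
  cov (Lg E) (fun t => X (Sum.inl t)) x y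

theorem sg_comm (x y : Fin n) : sg E x y = sg E y x := cov_comm _ _ _ _

/-- The generic parametrization. -/
noncomputable def Phi (E : Fin n → Fin n → Prop) : MvPolynomial (Idx n) ℝ →ₐ[ℝ] B E :=
  aeval fun p => sg E p.1.1 p.1.2

/-- The variable `sigma_xy = sigma_yx`. -/
def vv (x y : Fin n) : Idx n := ⟨(min x y, max x y), min_le_max⟩

theorem vv_inj (x y x' y' : Fin n) (h : vv x y = vv x' y') :
    (x = x' ∧ y = y') ∨ (x = y' ∧ y = x') := by
  have h1 : min x y = min x' y' := congrArg (fun p : Idx n => p.1.1) h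
  have h2 : max x y = max x' y' := congrArg (fun p : Idx n => p.1.2) h
  rcases le_total x y with h3 | h3 <;> rcases le_total x' y' with h4 | h4 <;>
    simp only [h3, h4, min_eq_left, min_eq_right, max_eq_left, max_eq_right] at h1 h2 <;> tauto

theorem Phi_vv (x y : Fin n) : Phi E (X (vv x y)) = sg E x y := by
  rw [Phi, aeval_X]
  rcases le_total x y with h | h
  · simp only [vv, min_eq_left h, max_eq_right h]
  · simp only [vv, min_eq_right h, max_eq_left h]
    exact sg_comm _ _

/-- Evaluation of the generic covariances. -/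
theorem eval_sg (hE : ∀ i, ¬ Relation.TransGen E i i) (x : Prm E → ℝ) (a b : Fin n) :
    eval x (sg E a b) = cov ((Lg E).map (eval x)) (fun t => x (Sum.inl t)) a b := by
  rw [sg, cov_map hE Lg_supp]
  simp

open Classical in
theorem Lg_map_eval (x : Prm E → ℝ) (a b : Fin n) :
    (Lg E).map (eval x) a b = if h : E a b then x (Sum.inr ⟨(a, b), h⟩) else 0 := by
  rw [Matrix.map_apply, Lg]
  split_ifs with h
  · rw [eval_X]
  · rw [map_zero]

theorem aeval_eq_eval' (s : Idx n → ℝ) (f : MvPolynomial (Idx n) ℝ) :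
    aeval s f = eval s f := by
  rw [← coe_aeval_eq_eval]; rfl

/-- The vanishing ideal is the kernel of the generic parametrization. -/
theorem gaussianIdeal_eq (hE : ∀ i, ¬ Relation.TransGen E i i) :
    gaussianIdeal E = RingHom.ker (Phi E) := by
  classical
  ext f
  rw [RingHom.mem_ker]
  have key : ∀ x : Prm E → ℝ, eval x (Phi E f) =
      eval (fun p : Idx n => cov ((Lg E).map (eval x)) (fun t => x (Sum.inl t)) p.1.1 p.1.2) f := by
    intro x
    have h : (eval x : B E →+* ℝ).comp (Phi E : MvPolynomial (Idx n) ℝ →+* B E) =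
        eval (fun p : Idx n => cov ((Lg E).map (eval x)) (fun t => x (Sum.inl t)) p.1.1 p.1.2) := by
      apply MvPolynomial.ringHom_ext
      · intro r
        simp [Phi]
      · intro p
        simp only [RingHom.comp_apply, RingHom.coe_coe, eval_X]
        rw [Phi, aeval_X, eval_sg hE]
    exact congrArg (fun g => g f) h
  constructor
  · intro hf
    refine funext_set (fun v : Prm E => v.elim (fun _ => Set.Ioi (0 : ℝ)) (fun _ => Set.univ))
      (by rintro (i | e)
          · exact Set.Ioi_infinite 0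
          · exact Set.infinite_univ) ?_
    intro x hx
    rw [map_zero, key x, ← coe_aeval_eq_eval]
    refine hf _ ⟨(Lg E).map (eval x), fun t => x (Sum.inl t), ?_, ?_, fun p => rfl⟩
    · intro a b hab
      rw [Lg_map_eval, dif_neg hab]
    · intro i
      exact hx (Sum.inl i) (Set.mem_univ _)
  · intro hf
    rintro s ⟨L, w, hL, hw, hs⟩
    have h1 := key (Sum.elim w (fun e => L e.1.1 e.1.2))
    rw [hf, map_zero] at h1
    have h2 : (Lg E).map (eval (Sum.elim w (fun e => L e.1.1 e.1.2))) = L := by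
      ext a b
      rw [Lg_map_eval]
      by_cases h : E a b
      · rw [dif_pos h]; rfl
      · rw [dif_neg h, hL a b h]
    rw [h2] at h1
    have h3 : s = fun p : Idx n => cov L
        (fun t => (Sum.elim w (fun e => L e.1.1 e.1.2) : Prm E → ℝ) (Sum.inl t)) p.1.1 p.1.2 :=
      funext hs
    rw [aeval_eq_eval', h3]
    exact h1.symm

/-! ### Orders -/

/-- Kill the edge parameters. -/
noncomputable def z0 (E : Fin n → Fin n → Prop) : B E →ₐ[ℝ] B E :=
  aeval (Sum.elim (fun i => X (Sum.inl i)) (fun _ => 0))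

theorem tau_coeff_zero (f : B E) : (tau f).coeff 0 = z0 E f := by
  have h : ((Polynomial.aeval (R := B E) (0 : B E)).restrictScalars ℝ).comp tau = z0 E := by
    apply MvPolynomial.algHom_ext
    rintro (i | i)
    · simp [tau_inl, z0]
    · simp [tau_inr, z0]
  have h1 := congrArg (fun g => g f) h
  rw [Polynomial.coeff_zero_eq_aeval_zero]
  exact h1

theorem z0_sg (hE : ∀ i, ¬ Relation.TransGen E i i) (x y : Fin n) :
    z0 E (sg E x y) = if x = y then X (Sum.inl x) else 0 := by
  have h0 : (Lg E).map (z0 E : B E →+* B E) = 0 := by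
    ext a b : 2
    rw [Matrix.map_apply, Lg]
    split_ifs with h
    · simp [z0]
    · simp
  have h1 : z0 E (sg E x y) = (z0 E : B E →+* B E) (cov (Lg E) (fun t => X (Sum.inl t)) x y) := rfl
  have h2 : pm (0 : Matrix (Fin n) (Fin n) (B E)) = 1 := by
    rw [pm, sub_zero, inv_one]
  rw [h1, cov_map hE Lg_supp, h0, cov_apply, h2]
  by_cases hxy : x = y
  · subst hxy
    rw [if_pos rfl, Finset.sum_eq_single x]
    · simp [z0]
    · intro t _ ht; rw [Matrix.one_apply_ne ht, mul_zero]
    · intro h; exact absurd (Finset.mem_univ _) h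
  · rw [if_neg hxy]
    refine Finset.sum_eq_zero fun t _ => ?_
    by_cases ht : t = x
    · subst ht; rw [Matrix.one_apply_ne hxy, mul_zero]
    · rw [Matrix.one_apply_ne ht, mul_zero, zero_mul]

theorem sg_self_ne (hE : ∀ i, ¬ Relation.TransGen E i i) (x : Fin n) : sg E x x ≠ 0 := by
  intro h
  have h1 := z0_sg hE x x
  rw [h, map_zero, if_pos rfl] at h1
  exact X_ne_zero _ h1.symm

theorem ord_sg_self (hE : ∀ i, ¬ Relation.TransGen E i i) (x : Fin n) : ord (sg E x x) = 0 := by
  rw [ord, Polynomial.natTrailingDegree_eq_zero]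
  right
  rw [tau_coeff_zero, z0_sg hE, if_pos rfl]
  exact X_ne_zero _

theorem ord_sg_pos (hE : ∀ i, ¬ Relation.TransGen E i i) {x y : Fin n} (hxy : x ≠ y)
    (h : sg E x y ≠ 0) : 1 ≤ ord (sg E x y) := by
  rw [Nat.one_le_iff_ne_zero, ord, Ne, Polynomial.natTrailingDegree_eq_zero, not_or]
  refine ⟨fun h' => h (tau_inj _ h'), ?_⟩
  rw [tau_coeff_zero, z0_sg hE, if_neg hxy]
  simp

open Classical in
/-- Kill the parameters of the edges `k → j` with `k ≠ c`. -/
noncomputable def sp (E : Fin n → Fin n → Prop) (c j : Fin n) : B E →ₐ[ℝ] B E :=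
  aeval (Sum.elim (fun i => X (Sum.inl i))
    (fun e => if e.1.2 = j ∧ e.1.1 ≠ c then 0 else X (Sum.inr e)))

theorem sp_inl (c j i : Fin n) : sp E c j (X (Sum.inl i)) = X (Sum.inl i) := by
  rw [sp, aeval_X]; rfl

open Classical in
theorem sp_Lg (c j x y : Fin n) :
    sp E c j (Lg E x y) = if y = j ∧ x ≠ c then 0 else Lg E x y := by
  by_cases h : E x y
  · rw [Lg_of h, sp, aeval_X]; rfl
  · rw [Lg_supp x y h, map_zero, ite_self]

theorem tau_sp (c j : Fin n) (f : B E) :
    tau (sp E c j f) = (tau f).map (sp E c j : B E →+* B E) := by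
  classical
  have h : tau.comp (sp E c j) = ((Polynomial.mapAlgHom (sp E c j)).comp tau :
      B E →ₐ[ℝ] Polynomial (B E)) := by
    apply MvPolynomial.algHom_ext
    rintro (i | e)
    · rw [AlgHom.comp_apply, AlgHom.comp_apply, sp_inl, tau_inl, Polynomial.coe_mapAlgHom,
        Polynomial.map_C]
      congr 1
      exact (sp_inl c j i).symm
    · rw [AlgHom.comp_apply, AlgHom.comp_apply, tau_inr, Polynomial.coe_mapAlgHom,
        Polynomial.map_mul, Polynomial.map_C, Polynomial.map_X]
      have h1 : (sp E c j : B E →+* B E) (X (Sum.inr e)) =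
          if e.1.2 = j ∧ e.1.1 ≠ c then 0 else X (Sum.inr e) := by
        change sp E c j (X (Sum.inr e)) = _
        rw [sp, aeval_X]; rfl
      have h2 : sp E c j (X (Sum.inr e)) =
          if e.1.2 = j ∧ e.1.1 ≠ c then 0 else X (Sum.inr e) := h1
      rw [h1, h2]
      split_ifs
      · simp
      · exact tau_inr _
  exact congrArg (fun g => g f) h

theorem ord_sp (c j : Fin n) (f : B E) (h : sp E c j f ≠ 0) : ord f ≤ ord (sp E c j f) := by
  rw [ord, ord]
  refine Polynomial.le_natTrailingDegree (fun h' => h (tau_inj _ h')) ?_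
  intro m hm
  rw [tau_sp, Polynomial.coeff_map, Polynomial.coeff_eq_zero_of_lt_natTrailingDegree hm, map_zero]

/-- The specialization does not change the covariances of non-descendants of `j`. -/
theorem sp_sg (hE : ∀ i, ¬ Relation.TransGen E i i) {c j x y : Fin n}
    (hx : ¬ Relation.ReflTransGen E j x) (hy : ¬ Relation.ReflTransGen E j y) :
    sp E c j (sg E x y) = sg E x y := by
  classical
  have h1 : sp E c j (sg E x y) =
    (sp E c j : B E →+* B E) (cov (Lg E) (fun t => X (Sum.inl t)) x y) := rfl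
  have hsupp : Supp E ((Lg E).map (sp E c j : B E →+* B E)) := by
    intro a b hab
    rw [Matrix.map_apply, Lg_supp a b hab, map_zero]
  have h2 : ∀ t y, ¬ Relation.ReflTransGen E j y →
      pm ((Lg E).map (sp E c j : B E →+* B E)) t y = pm (Lg E) t y := by
    intro t y hy
    refine pm_congr hE hsupp Lg_supp (fun y => ¬ Relation.ReflTransGen E j y)
      (fun a b hab hb ha => hb (ha.tail hab)) ?_ _ t y (Nat.lt_succ_self _) hy
    intro a b hb
    rw [Matrix.map_apply]
    change sp E c j (Lg E a b) = _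
    rw [sp_Lg, if_neg]
    rintro ⟨rfl, -⟩
    exact hb Relation.ReflTransGen.refl
  rw [h1, cov_map hE Lg_supp, cov_apply, sg, cov_apply]
  refine Finset.sum_congr rfl fun t _ => ?_
  rw [h2 t x hx, h2 t y hy]
  congr 2
  exact sp_inl c j t

/-- The effect of the specialization at `j`. -/
theorem sp_sg_top (hE : ∀ i, ¬ Relation.TransGen E i i) {c j r : Fin n} (hc : E c j)
    (hr : ¬ Relation.ReflTransGen E j r) :
    sp E c j (sg E r j) = Lg E c j * sg E r c := by
  classical
  have hcj : ¬ Relation.ReflTransGen E j c := fun h =>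
    hE j (Relation.TransGen.tail' h hc)
  rw [sg, cov_rec hE Lg_supp _ hr, map_sum, Finset.sum_eq_single c]
  · rw [map_mul, sp_Lg, if_neg (by simp)]
    congr 1
    exact sp_sg hE hr hcj
  · intro d _ hdc
    rw [map_mul, sp_Lg, if_pos ⟨rfl, hdc⟩, zero_mul]
  · intro h; exact absurd (Finset.mem_univ _) h

theorem ord_Lg {c j : Fin n} (hc : E c j) : ord (Lg E c j) = 1 := by
  rw [ord, Lg_of hc, tau_inr]
  rw [Polynomial.natTrailingDegree_mul (by rw [Ne, Polynomial.C_eq_zero]; exact X_ne_zero _)
    Polynomial.X_ne_zero, Polynomial.natTrailingDegree_C, Polynomial.natTrailingDegree_X]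

theorem ord_step (hE : ∀ i, ¬ Relation.TransGen E i i) {c i j : Fin n} (hc : E c j)
    (hi : ¬ Relation.ReflTransGen E j i) (h : sg E i c ≠ 0) :
    ord (sg E i j) ≤ ord (sg E i c) + 1 := by
  have h1 := sp_sg_top hE hc hi
  have h0 : Lg E c j ≠ 0 := by rw [Lg_of hc]; exact X_ne_zero _
  have h2 : sp E c j (sg E i j) ≠ 0 := by
    rw [h1]
    exact mul_ne_zero h0 h
  have h3 := ord_sp c j _ h2
  rw [h1, ord_mul _ _ h0 h, ord_Lg hc] at h3
  omega

/-- The key relation. -/
theorem relation (hE : ∀ i, ¬ Relation.TransGen E i i) (hBP : BP (RingHom.ker (Phi E)))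
    {i j : Fin n} (hij : i ≠ j) (hn : ¬ E i j) (hji : ¬ Relation.ReflTransGen E j i)
    (hne : sg E i j ≠ 0) :
    ∃ c, c ≠ i ∧ E c j ∧ sg E i j * sg E c c = sg E i c * sg E c j := by
  classical
  have hcj : ∀ c, E c j → ¬ Relation.ReflTransGen E j c := fun c hc h =>
    hE j (Relation.TransGen.tail' h hc)
  have hrec : ∀ r : Fin n, ¬ Relation.ReflTransGen E j r → sg E r j =
      ∑ c ∈ Finset.univ.filter (fun c => E c j), Lg E c j * sg E r c := by
    intro r hr
    rw [sg, cov_rec hE Lg_supp _ hr, Finset.sum_filter]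
    refine Finset.sum_congr rfl fun c _ => ?_
    by_cases h : E c j
    · rw [if_pos h]; rfl
    · rw [if_neg h, Lg_supp c j h, zero_mul]
  obtain ⟨c, hc, κ, hκ, heq⟩ := extraction (Phi E) vv vv_inj hBP
    (Finset.univ.filter (fun c => E c j)) i j (by simpa using hn)
    (by
      simp only [Finset.mem_filter, Finset.mem_univ, true_and]
      exact fun h => hE j (Relation.TransGen.single h))
    hij (fun c => Lg E c j)
    (by
      rw [Phi_vv, hrec i hji]
      exact Finset.sum_congr rfl fun c _ => by rw [Phi_vv])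
    (by
      intro r hr
      rw [Phi_vv, hrec r (hcj r (Finset.mem_filter.mp hr).2)]
      exact Finset.sum_congr rfl fun c _ => by rw [Phi_vv])
    ord ord_mul ord_smul
    (by intro c _; rw [Phi_vv]; exact sg_self_ne hE c)
    (by intro c _; rw [Phi_vv]; exact ord_sg_self hE c)
    (by intro x _ y hxy h; rw [Phi_vv] at h ⊢; exact ord_sg_pos hE hxy h)
    (by
      intro c hc h
      rw [Phi_vv] at h
      rw [Phi_vv, Phi_vv]
      exact ord_step hE (Finset.mem_filter.mp hc).2 hji h)
    (by rw [Phi_vv]; exact hne)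
  simp only [Phi_vv] at heq
  have hc' : E c j := (Finset.mem_filter.mp hc).2
  have hne' : sg E i c ≠ 0 := by
    intro h
    rw [h, zero_mul, smul_zero] at heq
    exact mul_ne_zero hne (sg_self_ne hE c) heq
  have hκ1 : κ = 1 := by
    have h1 := congrArg (sp E c j) heq
    rw [map_mul, map_smul, map_mul, sp_sg_top hE hc' hji, sp_sg_top hE hc' (hcj c hc'),
      sp_sg hE (hcj c hc') (hcj c hc'), sp_sg hE hji (hcj c hc')] at h1
    have h2 : sg E i c * (Lg E c j * sg E c c) ≠ 0 :=
      mul_ne_zero hne' (mul_ne_zero (by rw [Lg_of hc']; exact X_ne_zero _) (sg_self_ne hE c))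
    have h3 : (C 1 - C κ) * (sg E i c * (Lg E c j * sg E c c)) = 0 := by
      rw [sub_mul, C_1, one_mul, ← smul_eq_C_mul, ← h1]
      ring
    rcases mul_eq_zero.mp h3 with h4 | h4
    · rw [← map_sub] at h4
      have h5 : (1 : ℝ) - κ = 0 := by rwa [C_eq_zero] at h4
      exact (sub_eq_zero.mp h5).symm
    · exact absurd h4 h2
  refine ⟨c, ?_, hc', ?_⟩
  · rintro rfl; exact hn hc'
  · rw [heq, hκ1, one_smul]

end Pool.Agent.Q84.DSep
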