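import Pool.Agent.Q84.DSep.Defs

set_option autoImplicit false

/-!
# Matrices supported on a directed acyclic graph
-/

namespace Pool.Agent.Q84.DSep

open Matrix

variable {n : ℕ} {E : Fin n → Fin n → Prop} {R : Type*} [CommRing R]

/-- The matrix is supported on the edges. -/
def Supp (E : Fin n → Fin n → Prop) (L : Matrix (Fin n) (Fin n) R) : Prop :=
  ∀ i j, ¬ E i j → L i j = 0

open Classical in
/-- The number of strict ancestors. -/
noncomputable def ht (E : Fin n → Fin n → Prop) (x : Fin n) : ℕ :=
  (Finset.univ.filter fun y => Relation.TransGen E y x).card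

theorem ht_lt (hE : ∀ i, ¬ Relation.TransGen E i i) {x y : Fin n} (h : E x y) :
    ht E x < ht E y := by
  classical
  apply Finset.card_lt_card
  refine ⟨fun z hz => ?_, fun hsub => ?_⟩
  · simp only [Finset.mem_filter, Finset.mem_univ, true_and] at hz ⊢
    exact hz.tail h
  · have h1 : x ∈ Finset.univ.filter fun z => Relation.TransGen E z y := by
      simp only [Finset.mem_filter, Finset.mem_univ, true_and]
      exact Relation.TransGen.single h
    have h2 := hsub h1
    simp only [Finset.mem_filter, Finset.mem_univ, true_and] at h2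
    exact hE x h2

theorem ht_le (x : Fin n) : ht E x ≤ n := by
  classical
  unfold ht
  exact (Finset.card_le_univ _).trans (by simp)

theorem pow_supp (hE : ∀ i, ¬ Relation.TransGen E i i) {L : Matrix (Fin n) (Fin n) R}
    (hL : Supp E L) (k : ℕ) : ∀ x y, (L ^ k) x y ≠ 0 → ht E x + k ≤ ht E y := by
  induction k with
  | zero =>
    intro x y h
    rw [pow_zero] at h
    have : x = y := by
      by_contra hne
      exact h (one_apply_ne hne)
    rw [this, add_zero]
  | succ k ih =>
    intro x y h
    rw [pow_succ, mul_apply] at h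
    obtain ⟨z, -, hz⟩ := Finset.exists_ne_zero_of_sum_ne_zero h
    have h1 := ih x z (left_ne_zero_of_mul hz)
    have h2 : E z y := by
      by_contra hcon
      exact right_ne_zero_of_mul hz (hL z y hcon)
    have h3 := ht_lt hE h2
    omega

theorem pow_eq_zero (hE : ∀ i, ¬ Relation.TransGen E i i) {L : Matrix (Fin n) (Fin n) R}
    (hL : Supp E L) : L ^ (n + 1) = 0 := by
  ext x y
  by_contra h
  have h1 := pow_supp hE hL (n + 1) x y h
  have h2 := ht_le (E := E) y
  omega

theorem isUnit_one_sub (hE : ∀ i, ¬ Relation.TransGen E i i) {L : Matrix (Fin n) (Fin n) R}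
    (hL : Supp E L) : IsUnit (1 - L) :=
  IsNilpotent.isUnit_one_sub ⟨n + 1, pow_eq_zero hE hL⟩

/-- The path matrix. -/
noncomputable def pm (L : Matrix (Fin n) (Fin n) R) : Matrix (Fin n) (Fin n) R := (1 - L)⁻¹

theorem mul_pm (hE : ∀ i, ¬ Relation.TransGen E i i) {L : Matrix (Fin n) (Fin n) R}
    (hL : Supp E L) : (1 - L) * pm L = 1 :=
  mul_nonsing_inv _ ((isUnit_iff_isUnit_det _).mp (isUnit_one_sub hE hL))

theorem pm_mul (hE : ∀ i, ¬ Relation.TransGen E i i) {L : Matrix (Fin n) (Fin n) R}
    (hL : Supp E L) : pm L * (1 - L) = 1 :=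
  nonsing_inv_mul _ ((isUnit_iff_isUnit_det _).mp (isUnit_one_sub hE hL))

theorem pm_rec_right (hE : ∀ i, ¬ Relation.TransGen E i i) {L : Matrix (Fin n) (Fin n) R}
    (hL : Supp E L) (x y : Fin n) :
    pm L x y = (1 : Matrix (Fin n) (Fin n) R) x y + ∑ z, pm L x z * L z y := by
  have h := pm_mul hE hL
  rw [mul_sub, mul_one] at h
  rw [← mul_apply, ← h]
  simp

theorem pm_rec_left (hE : ∀ i, ¬ Relation.TransGen E i i) {L : Matrix (Fin n) (Fin n) R}
    (hL : Supp E L) (x y : Fin n) :
    pm L x y = (1 : Matrix (Fin n) (Fin n) R) x y + ∑ z, L x z * pm L z y := by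
  have h := mul_pm hE hL
  rw [sub_mul, one_mul] at h
  rw [← mul_apply, ← h]
  simp

theorem pm_map (hE : ∀ i, ¬ Relation.TransGen E i i) {L : Matrix (Fin n) (Fin n) R}
    (hL : Supp E L) {R' : Type*} [CommRing R'] (g : R →+* R') (x y : Fin n) :
    g (pm L x y) = pm (L.map g) x y := by
  have h := mul_pm hE hL
  have h1 : (1 - L.map g) * (pm L).map g = 1 := by
    have := congrArg (fun M : Matrix (Fin n) (Fin n) R => M.map g) h
    rw [Matrix.map_mul, Matrix.map_sub _ (fun a b => map_sub g a b),
      Matrix.map_one _ (map_zero g) (map_one g)] at this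
    exact this
  have h2 : pm (L.map g) = (pm L).map g := inv_eq_right_inv h1
  rw [h2]; rfl

/-- The entry is zero unless there is a directed path. -/
theorem pm_eq_zero (hE : ∀ i, ¬ Relation.TransGen E i i) {L : Matrix (Fin n) (Fin n) R}
    (hL : Supp E L) : ∀ (k : ℕ) (x y : Fin n), ht E y < k → ¬ Relation.ReflTransGen E x y →
    pm L x y = 0 := by
  intro k
  induction k with
  | zero => intro x y h; exact absurd h (Nat.not_lt_zero _)
  | succ k ih =>
    intro x y hk hxy
    have hne : x ≠ y := by rintro rfl; exact hxy Relation.ReflTransGen.refl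
    rw [pm_rec_right hE hL, one_apply_ne hne, zero_add]
    refine Finset.sum_eq_zero fun z _ => ?_
    by_cases hz : E z y
    · rw [ih x z (by have := ht_lt hE hz; omega) (fun h => hxy (h.tail hz)), zero_mul]
    · rw [hL z y hz, mul_zero]

/-- Two matrices with the same columns at an ancestral set have the same path matrix there. -/
theorem pm_congr (hE : ∀ i, ¬ Relation.TransGen E i i) {L L' : Matrix (Fin n) (Fin n) R}
    (hL : Supp E L) (hL' : Supp E L') (N : Fin n → Prop) (hN : ∀ x y, E x y → N y → N x)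
    (hLL' : ∀ x y, N y → L x y = L' x y) : ∀ (k : ℕ) (x y : Fin n), ht E y < k → N y →
    pm L x y = pm L' x y := by
  intro k
  induction k with
  | zero => intro x y h; exact absurd h (Nat.not_lt_zero _)
  | succ k ih =>
    intro x y hk hy
    rw [pm_rec_right hE hL, pm_rec_right hE hL']
    congr 1
    refine Finset.sum_congr rfl fun z _ => ?_
    rw [hLL' z y hy]
    by_cases hz : E z y
    · rw [ih x z (by have := ht_lt hE hz; omega) (hN z y hz hy)]
    · rw [hL' z y hz, mul_zero, mul_zero]

theorem cov_apply (L : Matrix (Fin n) (Fin n) R) (w : Fin n → R) (x y : Fin n) :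
    cov L w x y = ∑ t, w t * pm L t x * pm L t y := by
  rw [cov, mul_apply]
  refine Finset.sum_congr rfl fun t _ => ?_
  rw [mul_diagonal, transpose_apply]
  change pm L t x * w t * pm L t y = _
  ring

theorem cov_comm (L : Matrix (Fin n) (Fin n) R) (w : Fin n → R) (x y : Fin n) :
    cov L w x y = cov L w y x := by
  rw [cov_apply, cov_apply]
  exact Finset.sum_congr rfl fun t _ => by ring

theorem cov_map (hE : ∀ i, ¬ Relation.TransGen E i i) {L : Matrix (Fin n) (Fin n) R}
    (hL : Supp E L) {R' : Type*} [CommRing R'] (g : R →+* R') (w : Fin n → R) (x y : Fin n) :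
    g (cov L w x y) = cov (L.map g) (fun t => g (w t)) x y := by
  rw [cov_apply, cov_apply, map_sum]
  refine Finset.sum_congr rfl fun t _ => ?_
  rw [map_mul, map_mul, pm_map hE hL, pm_map hE hL]

/-- The recursion for the covariances. -/
theorem cov_rec (hE : ∀ i, ¬ Relation.TransGen E i i) {L : Matrix (Fin n) (Fin n) R}
    (hL : Supp E L) (w : Fin n → R) {r j : Fin n} (h : ¬ Relation.ReflTransGen E j r) :
    cov L w r j = ∑ c, L c j * cov L w r c := by
  have h1 : ∀ t, w t * pm L t r * pm L t j = ∑ c, L c j * (w t * pm L t r * pm L t c) := by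
    intro t
    by_cases ht : t = j
    · subst ht
      rw [pm_eq_zero hE hL _ t r (Nat.lt_succ_self _) h]
      simp
    · rw [pm_rec_right hE hL t j, one_apply_ne ht, zero_add, Finset.mul_sum]
      exact Finset.sum_congr rfl fun c _ => by ring
  rw [cov_apply, Finset.sum_congr rfl fun t _ => h1 t, Finset.sum_comm]
  refine Finset.sum_congr rfl fun c _ => ?_
  rw [cov_apply, Finset.mul_sum]

/-- Positivity of the path matrix of a nonnegative matrix. -/
theorem pm_nonneg (hE : ∀ i, ¬ Relation.TransGen E i i) {A : Matrix (Fin n) (Fin n) ℝ}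
    (hA : Supp E A) (h0 : ∀ x y, 0 ≤ A x y) : ∀ (k : ℕ) (x y : Fin n), ht E y < k →
    0 ≤ pm A x y := by
  intro k
  induction k with
  | zero => intro x y h; exact absurd h (Nat.not_lt_zero _)
  | succ k ih =>
    intro x y hk
    rw [pm_rec_right hE hA]
    refine add_nonneg ?_ (Finset.sum_nonneg fun z _ => ?_)
    · by_cases h : x = y
      · rw [h, one_apply_eq]; exact zero_le_one
      · rw [one_apply_ne h]
    · by_cases hz : E z y
      · exact mul_nonneg (ih x z (by have := ht_lt hE hz; omega)) (h0 z y)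
      · rw [hA z y hz, mul_zero]

theorem pm_pos (hE : ∀ i, ¬ Relation.TransGen E i i) {A : Matrix (Fin n) (Fin n) ℝ}
    (hA : Supp E A) (h0 : ∀ x y, 0 ≤ A x y) {x y : Fin n}
    (h : Relation.ReflTransGen (fun a b => 0 < A a b) x y) : 0 < pm A x y := by
  have hnn : ∀ x y, 0 ≤ pm A x y := fun x y => pm_nonneg hE hA h0 _ x y (Nat.lt_succ_self _)
  induction h with
  | refl =>
    rw [pm_rec_right hE hA, one_apply_eq]
    exact add_pos_of_pos_of_nonneg one_pos
      (Finset.sum_nonneg fun z _ => mul_nonneg (hnn _ _) (h0 _ _))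
  | @tail b c _ hbc ih =>
    rw [pm_rec_right hE hA]
    refine add_pos_of_nonneg_of_pos ?_ ?_
    · by_cases h : x = c
      · rw [h, one_apply_eq]; exact zero_le_one
      · rw [one_apply_ne h]
    · exact Finset.sum_pos' (fun z _ => mul_nonneg (hnn _ _) (h0 _ _))
        ⟨b, Finset.mem_univ _, mul_pos ih hbc⟩

end Pool.Agent.Q84.DSep
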